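import Pool.Agent.MP_4f1c5b_al.G.Main
import Pool.Agent.MP_4f1c5b_al.H95.All

/-!
Vanishing at zero of topological representation zeta functions of non-abelian unipotent groups,
for every presentation, with the Euler characteristics of the complex points as coefficients.
-/

open Pool.Agent.MP_4f1c5b_al Polynomial AlgebraicGeometry CategoryTheory

theorem Pool.Agent.Results.MP_4f1c5b_al.Full.result (k : Type) [Field k] [NumberField k]
    [Algebra (NumberField.RingOfIntegers k) ℂ] (n : ℕ)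
    (S : Set (MvPolynomial (Fin n × Fin n) (NumberField.RingOfIntegers k))) (hS : H1.IsGroup S)
    (hna : ∃ g ∈ H1.grp S k, ∃ h ∈ H1.grp S k, g * h ≠ h * g) (r : ℕ)
    (V : Fin r → Over (Spec (CommRingCat.of (NumberField.RingOfIntegers k))))
    (A B : Fin r → ℚ[X][X]) (ρ : Fin r → RatFunc ℚ) (h : H20.Pres S V A B ρ) :
    ∃ c : Fin r → ℤ, (∀ i, H95.IsChi (V i) (c i)) ∧ H1.VanishAtZero (∑ i, c i • ρ i) := by
  obtain ⟨c, h1, h2⟩ := H95.chi V fun i => (h.1 i).2
  obtain ⟨A', B', ρ', -, h3, h4⟩ := H20.main20 hS hna h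
  exact ⟨c, h1, h4 c h2.rel ▸ H1.VanishAtZero.sum h3 c⟩
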